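import Mathlib
import Pool.Agent.Helper43.RK.Defs

/-! Project RK (MP_aa96c4_al): chains of digit steps (`ChainExists`, `ChainProps`). -/

namespace RK27

open RK43

theorem ext_of {G : Type} [Group G] (f : G → TT) (x : G) :
    ext f (MonoidAlgebra.of ℤ G x) = f x := by
  simp [ext, MonoidAlgebra.of_apply]

/-! ### Digits along one step -/

section step

variable {p : ℕ} {G : Type} [Group G] {S : ℕ → Subgroup G} {F E : Subgroup G} {e : G} {w : ℕ}

private theorem step_uniq (h : Step p S F E e w) {a a' : ℕ} {y y' : G} (ha : a < p) (ha' : a' < p)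
    (hy : y ∈ F) (hy' : y' ∈ F) (he : e ^ a * y = e ^ a' * y') : a = a' ∧ y = y' := by
  have key : ∀ {a a' : ℕ} {y y' : G}, a' < p → y ∈ F → y' ∈ F → a ≤ a' →
      e ^ a * y = e ^ a' * y' → a = a' := by
    intro a a' y y' ha' hy hy' hle he
    obtain ⟨d, rfl⟩ := Nat.exists_eq_add_of_le hle
    rw [pow_add, mul_assoc] at he
    have h1 := mul_left_cancel he
    have h2 := h.uniq d (by omega) y' hy' (by rw [← h1]; exact hy)
    omega
  have h1 : a = a' := by
    rcases le_total a a' with hle | hle
    · exact key ha' hy hy' hle he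
    · exact (key ha hy' hy hle he.symm).symm
  subst h1
  exact ⟨rfl, mul_left_cancel he⟩

private theorem step_ext (h : Step p S F E e w) (g : G → TT) :
    ∃ f' : G → TT, ∀ a < p, ∀ y ∈ F, f' (e ^ a * y) = g y := by
  classical
  refine ⟨fun x => if hx : ∃ y ∈ F, ∃ a < p, x = e ^ a * y then g hx.choose else 0, ?_⟩
  intro a ha y hy
  have hx : ∃ y' ∈ F, ∃ a' < p, e ^ a * y = e ^ a' * y' := ⟨y, hy, a, ha, rfl⟩
  refine (dif_pos hx).trans ?_
  obtain ⟨hy', a', ha', he⟩ := hx.choose_spec
  exact congrArg g (step_uniq h ha ha' hy hy' he).2.symm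

end step

private theorem zeros_props {α : Type} (p : ℕ) (hp : 0 < p) (l : List α) :
    (List.replicate l.length 0).length = l.length ∧
      ∀ a ∈ List.replicate l.length 0, a < p := by
  refine ⟨List.length_replicate, fun a ha => ?_⟩
  rw [(List.mem_replicate.mp ha).2]
  exact hp

private theorem dprod_zeros {G : Type} [Group G] (l : List (G × ℕ)) :
    dprod l (List.replicate l.length 0) = 1 := by
  induction l with
  | nil => rfl
  | cons q l ih =>
    rw [List.length_cons, List.replicate_succ, dprod, ih, pow_zero, one_mul]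

/-- **CHAIN, consequences.** -/
theorem chainProps (p : ℕ) [hp : Fact p.Prime] (hone : OneStep p) : ChainProps p := by
  intro G _ S F E l hc
  induction hc with
  | nil =>
    refine ⟨fun q hq => by simp at hq, ?_, ?_, ?_, ?_⟩
    · intro v x hx hxv
      exact ⟨[], rfl, fun a ha => by simp at ha, x, hx, hxv, by rw [dprod, one_mul]⟩
    · intro x hx
      exact ⟨[], rfl, fun a ha => by simp at ha, x, hx, by rw [dprod, one_mul]⟩
    · intro f
      refine ⟨f, ?_⟩
      intro as _ _ y _
      rw [dprod, one_mul]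
    · intro f f' _ hd Θ R _ hk b l hl hin hR
      have hff : ∀ y ∈ F, f' y = f y := by
        intro y hy
        have := hd [] rfl (fun a ha => by simp at ha) y hy
        rwa [dprod, one_mul] at this
      have h1 := hk b l hl hin hR
      -- `ext` depends only on the values on `F`
      have key : ∀ l : List G, (∀ x ∈ l, x ∈ F) → ∀ y ∈ F,
          ext f' (MonoidAlgebra.of ℤ G y * wd l) = ext f (MonoidAlgebra.of ℤ G y * wd l) := by
        intro l
        induction l with
        | nil =>
          intro _ y hy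
          rw [wd, List.map_nil, List.prod_nil, mul_one]
          have e1 : ∀ g : G → TT, ext g (MonoidAlgebra.of ℤ G y) = g y := fun g => RK27.ext_of g y
          rw [e1, e1, hff y hy]
        | cons x l ih =>
          intro hx y hy
          have hxF : x ∈ F := hx x (List.mem_cons_self)
          have hlF : ∀ z ∈ l, z ∈ F := fun z hz => hx z (List.mem_cons_of_mem _ hz)
          have e1 : MonoidAlgebra.of ℤ G y * wd (x :: l) =
              MonoidAlgebra.of ℤ G (y * x) * wd l - MonoidAlgebra.of ℤ G y * wd l := by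
            rw [wd, List.map_cons, List.prod_cons, ← wd, dl, map_mul, sub_mul, mul_sub, one_mul,
              mul_assoc]
          rw [e1, map_sub, map_sub, ih hlF _ (F.mul_mem hy hxF), ih hlF _ hy]
      have h2 := key (l.map Prod.fst) (by
        intro x hx
        obtain ⟨a, ha, rfl⟩ := List.mem_map.mp hx
        exact (hin a ha).1) 1 F.one_mem
      rw [map_one, one_mul] at h2
      rw [h2]
      exact h1
  | @cons F' E l e w hc hs ih =>
    obtain ⟨ih1, ih2, ih3, ih4, ih5⟩ := ih
    refine ⟨?_, ?_, ?_, ?_, ?_⟩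
    · intro q hq
      rcases List.mem_cons.mp hq with rfl | hq
      · exact ⟨hs.eE, hs.eS⟩
      · exact ⟨hs.le (ih1 q hq).1, (ih1 q hq).2⟩
    · intro v x hx hxv
      obtain ⟨a, ha, y, hy, rfl⟩ := hs.dig x hx
      obtain ⟨hyv, -⟩ := hs.adapt v a ha y hy hxv
      obtain ⟨as, h1, h2, z, hz, hzv, rfl⟩ := ih2 v y hy hyv
      refine ⟨a :: as, by simp [h1], ?_, z, hz, hzv, ?_⟩
      · intro c hc
        rcases List.mem_cons.mp hc with rfl | hc
        · exact ha
        · exact h2 c hc
      · rw [dprod, mul_assoc]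
    · intro x hx
      obtain ⟨a, ha, y, hy, rfl⟩ := hs.dig x hx
      obtain ⟨as, h1, h2, z, hz, rfl⟩ := ih3 y hy
      refine ⟨a :: as, by simp [h1], ?_, z, hz, ?_⟩
      · intro c hc
        rcases List.mem_cons.mp hc with rfl | hc
        · exact ha
        · exact h2 c hc
      · rw [dprod, mul_assoc]
    · intro f
      obtain ⟨g, hg⟩ := ih4 f
      obtain ⟨f', hf'⟩ := step_ext hs g
      refine ⟨f', ?_⟩
      intro as h1 h2 y hy
      cases as with
      | nil => simp at h1
      | cons a as =>
        have h1' : as.length = l.length := by simpa using h1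
        have h2' : ∀ c ∈ as, c < p := fun c hc => h2 c (List.mem_cons_of_mem _ hc)
        have ha : a < p := h2 a (List.mem_cons_self)
        rw [dprod, mul_assoc]
        have hin : dprod l as * y ∈ F' := by
          refine F'.mul_mem ?_ ?_
          · clear h1 h2 h1' h2' hg hf' ih4 ih5 ih2 ih3 hs hc
            induction l generalizing as with
            | nil => exact F'.one_mem
            | cons q l ihl =>
              cases as with
              | nil => exact F'.one_mem
              | cons c as =>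
                rw [dprod]
                exact F'.mul_mem (F'.pow_mem (ih1 q (List.mem_cons_self)).1 _)
                  (ihl (fun q hq => ih1 q (List.mem_cons_of_mem _ hq)) as)
          · have : ∀ {F E : Subgroup G} {l : List (G × ℕ)}, Chain p S F l E → F ≤ E := by
              intro F E l h
              induction h with
              | nil => exact le_rfl
              | cons _ hs ih => exact ih.trans hs.le
            exact this hc hy
        rw [hf' a ha _ hin]
        exact hg as h1' h2' y hy
    · intro f f' hf1 hd Θ R hpot hk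
      obtain ⟨g, hg⟩ := ih4 f
      have hg1 : g 1 = 0 := by
        have h1 := hg (List.replicate l.length 0) (zeros_props p hp.out.pos l).1
          (zeros_props p hp.out.pos l).2 1 F.one_mem
        rw [dprod_zeros, one_mul, hf1] at h1
        exact h1
      have hkg := ih5 f g hf1 hg Θ R (fun q hq => hpot q (List.mem_cons_of_mem _ hq)) hk
      refine hone S F' E e w hs g f' hg1 ?_ Θ R (hpot (e, w) (List.mem_cons_self)) hkg
      intro a ha y hy
      obtain ⟨as, h1, h2, z, hz, rfl⟩ := ih3 y hy
      have h3 := hd (a :: as) (by simp [h1]) (by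
        intro c hc
        rcases List.mem_cons.mp hc with rfl | hc
        · exact ha
        · exact h2 c hc) z hz
      rw [dprod, mul_assoc] at h3
      rw [h3, hg as h1 h2 z hz]

/-! ### Existence of the chain -/

private theorem Chain.append {p : ℕ} {G : Type} [Group G] {S : ℕ → Subgroup G}
    {F F' E : Subgroup G} {l l' : List (G × ℕ)} (h : Chain p S F l F') (h' : Chain p S F' l' E) :
    Chain p S F (l' ++ l) E := by
  induction h' with
  | nil => exact h
  | cons _ hs ih => exact Chain.cons ih hs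

section exist

variable {p : ℕ} [hp : Fact p.Prime] {G : Type} [Group G] {S : ℕ → Subgroup G} {F : Subgroup G}
  {H : ℕ}

/-- the admissible continuations -/
private def Adm (p : ℕ) {G : Type} [Group G] (S : ℕ → Subgroup G) (H : ℕ)
    (S' : ℕ → Subgroup G) : Prop :=
  Antitone S' ∧ (∀ v, v ≤ H → S' v = S v) ∧
    (∀ v w, 1 ≤ v → 1 ≤ w → w < H → ∀ x ∈ S' v, ∀ y ∈ S' w, x⁻¹ * y⁻¹ * x * y ∈ S' (v + w)) ∧
    (∀ w, 1 ≤ w → w < H → ∀ x ∈ S' w, x ^ p ∈ S' (p * w))

/-- adding one letter -/
private theorem one_letter {B B' : Subgroup G} (hB'n : B'.Normal) {w : ℕ} (hw1 : 1 ≤ w) (hwH : w < H)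
    (hS1 : S 1 = ⊤) (hanti : Antitone S) (hSn : ∀ v, (S v).Normal)
    (hc1 : ∀ x : G, ∀ y ∈ S w, x⁻¹ * y⁻¹ * x * y ∈ B)
    (hpw : ∀ x ∈ S w, x ^ p ∈ B) (hSB : S (w + 1) ≤ B) (hBB' : B ≤ B') {e : G} (heS : e ∈ S w)
    (heB : e ∉ B') :
    ∃ E' : Subgroup G, E'.Normal ∧ B' ≤ E' ∧ e ∈ E' ∧ (∀ x ∈ E', ∃ y ∈ B', ∃ a : ℕ, a < p ∧
      x = e ^ a * y) ∧ B'.relIndex E' = p ∧ ∀ S', Adm p S H S' → Step p S' B' E' e w := by
  -- powers of `e` in `B'`
  have hep : e ^ p ∈ B' := hBB' (hpw e heS)
  have hlt : ∀ d : ℕ, d < p → e ^ d ∈ B' → d = 0 := by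
    intro d hd hmem
    by_contra hd0
    apply heB
    have hcop : Nat.Coprime d p := by
      rw [Nat.coprime_comm, hp.out.coprime_iff_not_dvd]
      intro hdvd
      have := Nat.le_of_dvd (by omega) hdvd
      omega
    have hbez : (d : ℤ) * Nat.gcdA d p + (p : ℤ) * Nat.gcdB d p = 1 := by
      rw [← Nat.gcd_eq_gcd_ab, hcop.gcd_eq_one, Nat.cast_one]
    have e1 : e = (e ^ d) ^ (Nat.gcdA d p) * (e ^ p) ^ (Nat.gcdB d p) := by
      rw [← zpow_natCast e d, ← zpow_natCast e p, ← zpow_mul, ← zpow_mul, ← zpow_add, hbez,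
        zpow_one]
    rw [e1]
    exact B'.mul_mem (B'.zpow_mem hmem _) (B'.zpow_mem hep _)
  let E' : Subgroup G := B' ⊔ Subgroup.zpowers e
  have heE : e ∈ E' := Subgroup.mem_sup_right (Subgroup.mem_zpowers e)
  have hBE : B' ≤ E' := le_sup_left
  have hmem : ∀ x ∈ E', ∃ y ∈ B', ∃ a : ℕ, a < p ∧ x = e ^ a * y := by
    intro x hx
    have hx' : x ∈ (B' ⊔ Subgroup.zpowers e : Subgroup G) := hx
    rw [Subgroup.mem_sup_of_normal_left] at hx'
    obtain ⟨b, hb, z, hz, rfl⟩ := hx'
    obtain ⟨m, rfl⟩ := Subgroup.mem_zpowers_iff.mp hz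
    have hp0 : (p : ℤ) ≠ 0 := by exact_mod_cast hp.out.ne_zero
    have h2 := Int.emod_nonneg m hp0
    have h1 : m % p < p := Int.emod_lt_of_pos _ (by exact_mod_cast hp.out.pos)
    have h3 : e ^ m = e ^ (m % (p : ℤ)).toNat * (e ^ p) ^ (m / p) := by
      rw [← zpow_natCast e ((m % (p : ℤ)).toNat), ← zpow_natCast e p, Int.toNat_of_nonneg h2,
        ← zpow_mul, ← zpow_add, Int.emod_add_mul_ediv]
    refine ⟨(e ^ p) ^ (m / p) * ((e ^ m)⁻¹ * b * e ^ m), B'.mul_mem (B'.zpow_mem hep _) ?_,
      (m % (p : ℤ)).toNat, by omega, ?_⟩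
    · have := hB'n.conj_mem b hb (e ^ m)⁻¹
      simpa using this
    · rw [← mul_assoc, ← h3]
      group
  have hE'n : E'.Normal := by
    refine ⟨fun x hx g => ?_⟩
    obtain ⟨y, hy, a, -, rfl⟩ := hmem x hx
    have h1 : g * (e ^ a * y) * g⁻¹ = (g * e * g⁻¹) ^ a * (g * y * g⁻¹) := by
      rw [conj_pow]; group
    rw [h1]
    refine E'.mul_mem (E'.pow_mem ?_ _) (hBE (hB'n.conj_mem y hy g))
    have h2 : g * e * g⁻¹ = e * (e⁻¹ * (g⁻¹)⁻¹ * e * g⁻¹) := by group
    rw [h2]
    refine E'.mul_mem heE (hBE (hBB' ?_))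
    have h3 := B.inv_mem (hc1 g⁻¹ e heS)
    have h4 : ((g⁻¹)⁻¹ * e⁻¹ * g⁻¹ * e)⁻¹ = e⁻¹ * (g⁻¹)⁻¹ * e * g⁻¹ := by group
    rwa [h4] at h3
  have hidx : B'.relIndex E' = p := by
    let φ : Fin p → E' ⧸ B'.subgroupOf E' := fun a =>
      QuotientGroup.mk (⟨e ^ (a : ℕ), E'.pow_mem heE _⟩ : E')
    have hφ : Function.Bijective φ := by
      constructor
      · have key : ∀ a b : Fin p, (a : ℕ) ≤ b → φ a = φ b → a = b := by
          intro a b hab h
          have h1 := QuotientGroup.eq.mp h
          rw [Subgroup.mem_subgroupOf] at h1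
          have h2 : ((e ^ (a : ℕ))⁻¹ * e ^ (b : ℕ)) ∈ B' := h1
          obtain ⟨d, hd⟩ := Nat.exists_eq_add_of_le hab
          rw [hd, pow_add, inv_mul_cancel_left] at h2
          have h3 := hlt d (by have := b.2; omega) h2
          apply Fin.ext
          omega
        intro a b h
        rcases le_total (a : ℕ) b with hab | hab
        · exact key a b hab h
        · exact (key b a hab h.symm).symm
      · intro q
        induction q using QuotientGroup.induction_on with
        | H x =>
          obtain ⟨y, hy, a, ha, hx⟩ := hmem x.1 x.2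
          refine ⟨⟨a, ha⟩, ?_⟩
          rw [QuotientGroup.eq, Subgroup.mem_subgroupOf]
          change (e ^ a)⁻¹ * x.1 ∈ B'
          rw [hx, inv_mul_cancel_left]
          exact hy
    have h1 := Nat.card_eq_of_bijective φ hφ
    rw [Nat.card_eq_fintype_card, Fintype.card_fin] at h1
    exact h1.symm
  refine ⟨E', hE'n, hBE, heE, hmem, hidx, ?_⟩
  rintro S' ⟨hanti', hS', hcomm', hpow'⟩
  have heS' : e ∈ S' w := by rw [hS' w hwH.le]; exact heS
  have huniq : ∀ a < p, ∀ y ∈ B', e ^ a * y ∈ B' → a = 0 := fun a ha y hy h =>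
    hlt a ha ((Subgroup.mul_mem_cancel_right B' hy).mp h)
  exact
  { le := hBE
    dig := fun x hx => by
      obtain ⟨y, hy, a, ha, h⟩ := hmem x hx
      exact ⟨a, ha, y, hy, h⟩
    uniq := huniq
    eE := heE
    eS := heS'
    pow := ⟨hep, hpow' w hw1 hwH e heS'⟩
    comm := fun v y _ hyv => by
      refine ⟨hBB' (hc1 y e heS), ?_⟩
      rcases Nat.eq_zero_or_pos v with rfl | hv
      · rw [zero_add, hS' w hwH.le]
        refine (S w).mul_mem ?_ heS
        have := (hSn w).conj_mem _ ((S w).inv_mem heS) y⁻¹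
        simpa using this
      · exact hcomm' v w hv hw1 hwH y hyv e heS'
    adapt := fun v a ha y hy h => by
      rcases Nat.lt_or_ge w v with hv | hv
      · have h1 : e ^ a * y ∈ B' := by
          have h2 := hanti' (show w + 1 ≤ v from hv) h
          rw [hS' (w + 1) hwH] at h2
          exact hBB' (hSB h2)
        have h3 := huniq a ha y hy h1
        subst h3
        rw [pow_zero, one_mul] at h
        exact ⟨h, Or.inl rfl⟩
      · refine ⟨?_, Or.inr hv⟩
        exact (Subgroup.mul_mem_cancel_left _ ((S' v).pow_mem (hanti' hv heS') a)).mp h }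

/-- one layer -/
private theorem layer {w : ℕ} (hw1 : 1 ≤ w) (hwH : w < H) (hFn : F.Normal) (hFi : F.index ≠ 0)
    (hS1 : S 1 = ⊤) (hanti : Antitone S) (hSn : ∀ v, (S v).Normal)
    (hc1 : ∀ x : G, ∀ y ∈ S w, x⁻¹ * y⁻¹ * x * y ∈ F ⊔ S (w + 1))
    (hpw : ∀ x ∈ S w, x ^ p ∈ F ⊔ S (w + 1)) :
    ∀ (n : ℕ) (B' : Subgroup G), B'.relIndex (F ⊔ S w) ≤ n → B'.Normal → F ⊔ S (w + 1) ≤ B' →
      B' ≤ F ⊔ S w →
      ∃ l : List (G × ℕ), (∀ q ∈ l, q.2 = w) ∧ p ^ l.length = B'.relIndex (F ⊔ S w) ∧
        ∀ S', Adm p S H S' → Chain p S' B' l (F ⊔ S w) := by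
  have hne : ∀ B' : Subgroup G, F ⊔ S (w + 1) ≤ B' → B'.relIndex (F ⊔ S w) ≠ 0 := by
    intro B' hB
    have h1 : B'.index ≠ 0 := by
      intro h0
      have h2 := Subgroup.index_dvd_of_le ((le_sup_left).trans hB : F ≤ B')
      rw [h0, zero_dvd_iff] at h2
      exact hFi h2
    exact fun h0 => h1 (Subgroup.index_eq_zero_of_relIndex_eq_zero h0)
  intro n
  induction n with
  | zero =>
    intro B' hn _ hB _
    exact absurd (Nat.le_zero.mp hn) (hne B' hB)
  | succ n ih =>
    intro B' hn hB'n hB hB'
    by_cases hle : F ⊔ S w ≤ B'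
    · have heq : B' = F ⊔ S w := le_antisymm hB' hle
      refine ⟨[], fun q hq => by simp at hq, ?_, fun S' _ => ?_⟩
      · rw [List.length_nil, pow_zero, Subgroup.relIndex_eq_one.mpr hle]
      · rw [← heq]
        exact Chain.nil B'
    · have hex : ∃ e ∈ S w, e ∉ B' := by
        by_contra hcon
        push Not at hcon
        exact hle (sup_le (le_sup_left.trans hB) hcon)
      obtain ⟨e, heS, heB⟩ := hex
      obtain ⟨E', hE'n, hBE, heE, hmem, hidx, hstep⟩ := one_letter (p := p) hB'n hw1 hwH hS1 hanti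
        hSn hc1 hpw le_sup_right hB heS heB
      have hE' : E' ≤ F ⊔ S w := by
        intro x hx
        obtain ⟨y, hy, a, -, rfl⟩ := hmem x hx
        exact (F ⊔ S w).mul_mem ((F ⊔ S w).pow_mem (Subgroup.mem_sup_right heS) _) (hB' hy)
      have h3 : B'.relIndex E' * E'.relIndex (F ⊔ S w) = B'.relIndex (F ⊔ S w) :=
        Subgroup.relIndex_mul_relIndex _ _ _ hBE hE'
      rw [hidx] at h3
      have h4 : E'.relIndex (F ⊔ S w) ≤ n := by
        have h5 := hne E' (hB.trans hBE)
        have h6 := hp.out.two_le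
        have h7 : 2 * E'.relIndex (F ⊔ S w) ≤ p * E'.relIndex (F ⊔ S w) :=
          Nat.mul_le_mul_right _ h6
        omega
      obtain ⟨l, hl1, hl2, hl3⟩ := ih E' h4 hE'n (hB.trans hBE) hE'
      refine ⟨l ++ [(e, w)], ?_, ?_, ?_⟩
      · intro q hq
        rcases List.mem_append.mp hq with hq | hq
        · exact hl1 q hq
        · rw [List.mem_singleton.mp hq]
      · rw [List.length_append, List.length_singleton, pow_succ, hl2, mul_comm, h3]
      · intro S' hS'
        exact Chain.append (Chain.cons (Chain.nil B') (hstep S' hS')) (hl3 S' hS')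

end exist

/-- **DIGIT CHAIN.** -/
theorem chainExists (p : ℕ) [hp : Fact p.Prime] : ChainExists p := by
  intro G _ S F H hanti hS1 hFn hFi hSn hSH hcomm hpow
  have key : ∀ d w : ℕ, 1 ≤ w → w + d = H → ∃ l : List (G × ℕ), (∀ q ∈ l, w ≤ q.2 ∧ q.2 < H) ∧
      (∀ v, w ≤ v → v < H → p ^ (l.filter (fun q => q.2 = v)).length =
        (F ⊔ S (v + 1)).relIndex (F ⊔ S v)) ∧
      ∀ S', Adm p S H S' → Chain p S' F l (F ⊔ S w) := by
    intro d
    induction d with
    | zero =>
      intro w hw hwd
      have hwH : w = H := by omega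
      subst hwH
      refine ⟨[], fun q hq => by simp at hq, fun v h1 h2 => absurd h2 (by omega), fun S' _ => ?_⟩
      have h1 : F ⊔ S w = F := sup_eq_left.mpr hSH
      rw [h1]
      exact Chain.nil F
    | succ d ih =>
      intro w hw hwd
      obtain ⟨l, h1, h2, h3⟩ := ih (w + 1) (by omega) (by omega)
      have hwH : w < H := by omega
      have hB : (F ⊔ S (w + 1)).Normal := by
        have := hSn (w + 1)
        infer_instance
      obtain ⟨l', k1, k2, k3⟩ := layer (p := p) (H := H) hw hwH hFn hFi hS1 hanti hSn (by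
          intro x y hy
          exact Subgroup.mem_sup_right (hanti (by omega) (hcomm 1 w le_rfl hw (by omega) x
            (by rw [hS1]; trivial) y hy))) (by
          intro x hx
          refine Subgroup.mem_sup_right (hanti ?_ (hpow w hw x hx))
          have h6 := hp.out.two_le
          have h7 : 2 * w ≤ p * w := Nat.mul_le_mul_right _ h6
          omega) _ (F ⊔ S (w + 1)) le_rfl hB le_rfl (sup_le_sup_left (hanti (Nat.le_succ w)) F)
      refine ⟨l' ++ l, ?_, ?_, ?_⟩
      · intro q hq
        rcases List.mem_append.mp hq with hq | hq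
        · rw [k1 q hq]
          exact ⟨le_rfl, hwH⟩
        · have := h1 q hq
          exact ⟨by omega, this.2⟩
      · intro v hv hvH
        rw [List.filter_append, List.length_append]
        rcases Nat.eq_or_lt_of_le hv with rfl | hv
        · have e1 : l'.filter (fun q => q.2 = w) = l' := by
            rw [List.filter_eq_self]
            intro q hq
            simpa using k1 q hq
          have e2 : l.filter (fun q => q.2 = w) = [] := by
            rw [List.filter_eq_nil_iff]
            intro q hq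
            have := (h1 q hq).1
            simp only [decide_eq_true_eq]
            omega
          rw [e1, e2, List.length_nil, add_zero, k2]
        · have e1 : l'.filter (fun q => q.2 = v) = [] := by
            rw [List.filter_eq_nil_iff]
            intro q hq
            have := k1 q hq
            simp only [decide_eq_true_eq]
            omega
          rw [e1, List.length_nil, zero_add]
          exact h2 v hv hvH
      · intro S' hS'
        exact Chain.append (h3 S' hS') (k3 S' hS')
  by_cases hH : 1 ≤ H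
  · obtain ⟨l, h1, h2, h3⟩ := key (H - 1) 1 le_rfl (by omega)
    refine ⟨l, h1, h2, ?_⟩
    intro S' k1 k2 k3 k4
    have h4 := h3 S' ⟨k1, k2, k3, k4⟩
    rwa [hS1, sup_top_eq] at h4
  · have hH0 : H = 0 := by omega
    subst hH0
    have hF : F = ⊤ := by
      rw [eq_top_iff, ← hS1]
      exact (hanti (Nat.zero_le 1)).trans hSH
    refine ⟨[], fun q hq => by simp at hq, fun w h1 h2 => absurd h2 (by omega), ?_⟩
    intro S' _ _ _ _
    rw [hF]
    exact Chain.nil ⊤

end RK27
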